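import Pool.Agent.N874.QM.Final
import Pool.Agent.N874.QM.Gnu
import Pool.Agent.N874.Jac.Def
import Pool.Agent.N42.PQ.Fin
import Pool.Agent.N844.QF.Hf
import Pool.Agent.N844.QF.Ex

/-!
# The Bloch-Kato conjecture on Abel-Jacobi maps for a positive proportion of the intersections of two
# quadrics of every odd dimension, over totally real Galois 2-extensions of `ℚ`

Let `g ≥ 1` and let `X ⊂ P^(2g+1)` be a smooth complete intersection of two quadrics over `ℚ`, of dimension
`2 g - 1`, such that a member of the pencil of quadrics which contain `X` is rational and singular. After a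
change of coordinates `X` is the base locus of a pencil `x A - z B` of integral symmetric matrices with

  `(-1)^(g+1) det (x A - z B) = m² z F(x, z)`, `F(x, 1) = f = x^(2g+1) + a_(2g-1) x^(2g-1) + ... + a_0`,

with `m ≠ 0` and integral `a_i`. By Reid and Donagi `H^(2g-1)(X, ℚ_2(g)) = V_2 J` and
`CH^g(X)_0 ⊗ ℚ_2 = J(M) ⊗ ℚ_2`, where `J` is the Jacobian of `y² = f(x)`, over every number field `M`. (These
facts are not formalized here; the numbers of points of `X` over finite fields are computed, and by
Faltings they determine the representation.)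

Let `M` be any Galois extension of `ℚ` of degree `2 ^ n` with an embedding in `ℝ` and an embedding in `ℚ_2`,
for example `M = ℚ(√d_1, ..., √d_r)` with positive `d_i` congruent to 1 modulo 8. Order ALL the `f` by
height, `|a_i| ≤ B^(2g+1-i)`. We prove that for a positive proportion of them multiplication by two is
bijective on `J(M)` (by the theorem of Mordell and Weil this means that `J(M)` is finite of odd order) and
the Bloch-Kato Selmer group `H^1_f(M, V_2 J)` is zero. So for all the `X` which belong to these `f` both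
sides of the conjecture are zero and the 2-adic Abel-Jacobi map is an isomorphism. For every `f` there is an
`X` with `m = 1` which contains a linear subspace of dimension `g - 1` defined over `ℚ`.

The group `J(L)` is the Picard group of `L[x, y] / (y² - f)` (library `N874/Jac/Def.lean`). The elements of
`V_2 J` are the sequences of the points `x_n` of 2-power order over the separable closure with
`x_(n+1)² = x_n` (`J` is written multiplicatively). For all finite places `v` the local subgroup
`H^1_f(M_v, V_2 J)` is the image of `J(M_v) ⊗ ℚ_2` (Bloch and Kato, Example 3.11), which is the definition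
here.

Proof. By the theorem of project QM (helper874, `MP_009fd8_ag.JacobiansOverTwoExtensions`) for a positive
proportion of the `f` the group `J(M)` is uniquely 2-divisible and the 2-primary part of the
Tate-Shafarevich group of `J` over `M` is zero. The points of a cocycle with values in `V_2 J` give cocycles
with values in `J`, which are trivial at all places (at the real places because they are divisible by two),
so they are coboundaries `σ P_n - P_n`; as the group of the invariant points is `J(M)`, `P_n` can be chosen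
of 2-power order, and it is unique. The pencils are in `N844/QF/{Pen,Ex}.lean`.

The theorem for the Jacobians is joint work: project QM: helper874, with helper783 (project PQ) and helper352
(project JB), with parts by helpers 42, 160, 222, 394, 438, 459, 521, 530, 711, 713, 756, 835, 849, 891, 999;
parts of PQ by helpers 2, 7, 27, 73, 134, 216, 262, 271, 316, 322, 340, 346, 348, 383, 400, 456, 457, 488, 490,
498, 507, 595, 644, 691, 747, 755, 776, 833, 850, 855, 878, 896, 951; of JB by helpers 106, 232, 424, 615, 655;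
of JM by helpers 123, 301, 738, 814.
-/

set_option autoImplicit false
set_option linter.style.haveILetI false

open Finset Matrix Polynomial IsDedekindDomain NumberField
open scoped LinearAlgebra.Projectivization

namespace Pool.Agent.N844.Kept.AllQuadricPencilsM

open Pool.Agent.N874.Jac (J mapJ Gal IsCocycle UniquelyTwoDivisible ShaTwoTrivialReal)

/-- the tuples of the coefficients with `|a_i| ≤ B ^ (2 g + 1 - i)`, `i < 2 g` -/
def Box (g B : ℕ) : Set (Fin (2 * g) → ℤ) := {a | ∀ i, |a i| ≤ (B : ℤ) ^ (2 * g + 1 - (i : ℕ))}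

/-- `x ^ (2 g + 1) + a_(2 g - 1) x ^ (2 g - 1) + ... + a_0` -/
noncomputable def polyZ {g : ℕ} (a : Fin (2 * g) → ℤ) : ℤ[X] :=
  X ^ (2 * g + 1) + ∑ i : Fin (2 * g), C (a i) * X ^ (i : ℕ)

/-- the polynomial `f` over the field `k` -/
noncomputable def poly {g : ℕ} (a : Fin (2 * g) → ℤ) (k : Type) [Field k] : k[X] :=
  (polyZ a).map (Int.castRingHom k)

/-- the homogeneous form `F(x, z)` of `f` -/
def form {g : ℕ} (a : Fin (2 * g) → ℤ) (x z : ℤ) : ℤ :=
  x ^ (2 * g + 1) + ∑ i : Fin (2 * g), a i * x ^ (i : ℕ) * z ^ (2 * g + 1 - (i : ℕ))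

/-! ### The Bloch-Kato Selmer group of `V_2 J` -/

section basic

variable {K : Type} [Field K] (F : K[X]) {Ω : Type} [Field Ω] [Algebra K Ω]

/-- The elements of `V_2 J`, `J` the Jacobian of `y ^ 2 = F(x)` (written multiplicatively), `Ω` a separable
closure of `K`: the sequences of points `x_n ∈ J(Ω)` of 2-power order with `x_(n + 1) ^ 2 = x_n`. -/
def IsV (x : ℕ → J F Ω) : Prop := ∀ n, x (n + 1) ^ 2 = x n ∧ ∃ m : ℕ, x n ^ 2 ^ m = 1

/-- the continuous cocycles with values in `V_2 J` -/
def VCocycleIn (c : (Ω ≃ₐ[K] Ω) → ℕ → J F Ω) : Prop :=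
  (∀ σ, IsV F (c σ)) ∧ ∀ n, IsCocycle F fun σ => c σ n

/-- the coboundaries with values in `V_2 J` -/
def VCoboundaryIn (c : (Ω ≃ₐ[K] Ω) → ℕ → J F Ω) : Prop :=
  ∃ x : ℕ → J F Ω, IsV F x ∧ ∀ σ n, c σ n = mapJ F σ.toAlgHom (x n) / x n

variable (E : Type) {Ω' : Type} [Field E] [Field Ω'] [Algebra E Ω'] [Algebra K E] [Algebra K Ω']
  [IsScalarTower K E Ω']

/-- For an embedding `ι : Ω → Ω'` and a point `Q ∈ J(Ω')` the restriction of the cocycle `c` with values in
`J(Ω)` to the automorphisms of `Ω'` over `E` is `τ ↦ τ Q / Q`. -/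
def Restricts (ι : Ω →ₐ[K] Ω') (Q : J F Ω') (c : (Ω ≃ₐ[K] Ω) → J F Ω) : Prop :=
  ∀ (τ : Ω' ≃ₐ[E] Ω') (σ : Ω ≃ₐ[K] Ω), (∀ x, τ (ι x) = ι (σ x)) →
    mapJ F ι (c σ) = mapJ F (τ.toAlgHom.restrictScalars K) Q / Q

variable (Ω')

/-- The restriction of the class of `c` to `E` is in the image of `J(E) ⊗ ℚ_2 → H ^ 1 (E, V_2 J)`, `Ω'` a
separable closure of `E`: there are an embedding `Ω → Ω'` and points `Q_n ∈ J(Ω')` with
`Q_(n + 1) ^ 2 = Q_n` and `c(τ)_n = τ Q_n / Q_n` for all automorphisms `τ` of `Ω'` over `E`. -/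
def KummerIn (c : (Ω ≃ₐ[K] Ω) → ℕ → J F Ω) : Prop :=
  ∃ (ι : Ω →ₐ[K] Ω') (Q : ℕ → J F Ω'), (∀ n, Q (n + 1) ^ 2 = Q n) ∧
    ∀ n, Restricts F E ι (Q n) fun σ => c σ n

end basic

section selmer

variable {K : Type} [Field K] (F : K[X])

/-- sequences of functions on the absolute Galois group of `K` with values in `J(K^sep)` -/
abbrev VCochain : Type := Gal K → ℕ → J F (SeparableClosure K)

variable {F}

/-- the continuous cocycles on the absolute Galois group with values in `V_2 J` -/
def VCocycle (c : VCochain F) : Prop := VCocycleIn F c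

/-- the coboundaries with values in `V_2 J` -/
def VCoboundary (c : VCochain F) : Prop := VCoboundaryIn F c

/-- the restriction of the class of `c` to `E` is in the image of `J(E) ⊗ ℚ_2` -/
def Kummer (E : Type) [Field E] [Algebra K E] (c : VCochain F) : Prop :=
  KummerIn F E (SeparableClosure E) c

/-- the class of `c` is in the image of `J(K_v) ⊗ ℚ_2` for the completions `K_v` of `K` at all maximal
ideals `v` of the Dedekind ring `R` with field of fractions `K` -/
def KummerAtPrimes (R : Type) [CommRing R] [IsDedekindDomain R] [Algebra R K] [IsFractionRing R K]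
    (c : VCochain F) : Prop := ∀ v : HeightOneSpectrum R, Kummer (v.adicCompletion K) c

variable (F)

/-- For a number field `K` with the ring of integers `R`: the Bloch-Kato Selmer group
`H ^ 1_f (K, V_2 J)` is zero, `J` the Jacobian of `y ^ 2 = F(x)`. Every continuous cocycle with values in
`V_2 J` whose class is in the image of `J(K_v) ⊗ ℚ_2` at all finite places `v` is a coboundary. -/
def SelmerZero (R : Type) [CommRing R] [IsDedekindDomain R] [Algebra R K] [IsFractionRing R K] :
    Prop := ∀ c : VCochain F, VCocycle c → KummerAtPrimes R c → VCoboundary c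

end selmer

/-- The tuples of `Box g B` for which `f` is irreducible over `ℚ`, `P ↦ P ^ 2` is bijective on `J(M)`, the
2-primary part of the Tate-Shafarevich group of `J` over `M` is zero and `H ^ 1_f (M, V_2 J) = 0`. -/
def Good (M : Type) [Field M] [NumberField M] (g B : ℕ) : Set (Fin (2 * g) → ℤ) :=
  {a | a ∈ Box g B ∧ Irreducible (poly a ℚ) ∧ UniquelyTwoDivisible (poly a M) ∧
    ShaTwoTrivialReal (poly a M) (𝓞 M) ∧ SelmerZero (poly a M) (𝓞 M)}

/-- a positive proportion of the tuples ordered by height is good -/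
def PositiveProportion (M : Type) [Field M] [NumberField M] (g : ℕ) : Prop :=
  ∃ c : ℝ, 0 < c ∧ ∃ B₀ : ℕ, ∀ B ≥ B₀, (Box g B).Finite ∧ 0 < (Box g B).ncard ∧
    c * ((Box g B).ncard : ℝ) ≤ ((Good M g B).ncard : ℝ)

/-- `M` is a Galois extension of `ℚ` of degree `2 ^ n` with an embedding in `ℚ_2` and an embedding in
`ℝ` -/
structure IsTwoExtension (M : Type) [Field M] [NumberField M] : Prop where
  galois : IsGalois ℚ M
  degree : ∃ n : ℕ, Module.finrank ℚ M = 2 ^ n
  two : Nonempty (M →+* ℚ_[2])
  real : Nonempty (M →+* ℝ)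

/-! ### The intersections of two quadrics -/

/-- the integral matrices of size `2 g + 2` -/
abbrev Mat (g : ℕ) : Type := Matrix (Fin (2 * g + 2)) (Fin (2 * g + 2)) ℤ

/-- the quadratic form of a matrix -/
def qf {R : Type*} [CommRing R] {N : ℕ} (A : Matrix (Fin N) (Fin N) R) (y : Fin N → R) : R :=
  y ⬝ᵥ (A *ᵥ y)

/-- the integral pencils with discriminant `m ^ 2 z F(x, z)` -/
structure IsPencil {g : ℕ} (a : Fin (2 * g) → ℤ) (m : ℤ) (A B : Mat g) : Prop where
  symA : A.IsSymm
  symB : B.IsSymm
  disc : ∀ x z : ℤ, (-1) ^ (g + 1) * (x • A - z • B).det = m ^ 2 * (z * form a x z)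

/-- the reduction of an integral matrix to a field -/
def red {N : ℕ} (A : Matrix (Fin N) (Fin N) ℤ) (k : Type) [Field k] : Matrix (Fin N) (Fin N) k :=
  A.map (Int.castRingHom k)

/-- the quadratic forms of `A` and `B` over `k` are zero at `y` -/
def OnX {N : ℕ} (A B : Matrix (Fin N) (Fin N) ℤ) (k : Type) [Field k] (y : Fin N → k) : Prop :=
  qf (red A k) y = 0 ∧ qf (red B k) y = 0

/-- the base locus `X` of the pencil is smooth over `k` (Jacobian criterion at the points over `k`) -/
def Smooth {N : ℕ} (A B : Matrix (Fin N) (Fin N) ℤ) (k : Type) [Field k] : Prop :=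
  ∀ y : Fin N → k, y ≠ 0 → OnX A B k y → LinearIndependent k ![red A k *ᵥ y, red B k *ᵥ y]

/-- the number of the points over `k` of the base locus `X` of the pencil -/
noncomputable def numP {N : ℕ} (A B : Matrix (Fin N) (Fin N) ℤ) (k : Type) [Field k] : ℕ :=
  Nat.card {P : ℙ k (Fin N → k) // OnX A B k P.rep}

/-- the number of the points of the affine curve `y ^ 2 = f(x)` over `k` -/
noncomputable def numC {g : ℕ} (a : Fin (2 * g) → ℤ) (k : Type) [Field k] : ℕ :=
  Nat.card {P : k × k // P.2 ^ 2 = (poly a k).eval P.1}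

/-- The number of points of `X` over the finite field `k`: `H ^ (2 g - 1) (X) = H ^ 1 (C) (1 - g)` where `C`
is the curve `y ^ 2 = f(x)`. -/
def PointCount {g : ℕ} (a : Fin (2 * g) → ℤ) (A B : Mat g) (k : Type) [Field k] : Prop :=
  (numP A B k : ℤ) = ∑ i ∈ range (2 * g), (Nat.card k : ℤ) ^ i +
    (Nat.card k : ℤ) ^ (g - 1) * ((numC a k : ℤ) - Nat.card k)

/-- the linear subspace `y_g = ... = y_(2 g + 1) = 0` of dimension `g - 1` is contained in `X` -/
def ContainsPlane {g : ℕ} (A B : Mat g) : Prop :=
  ∀ y : Fin (2 * g + 2) → ℤ, (∀ i : Fin (2 * g + 2), g ≤ (i : ℕ) → y i = 0) →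
    qf A y = 0 ∧ qf B y = 0

section proof

open Pool.Agent.N783.PQ (ov pol Ht)

theorem poly_eq {g : ℕ} (a : Fin (2 * g) → ℤ) (k : Type) [Field k] :
    poly a k = (Pool.Agent.N844.QF.po a).map (Int.castRingHom k) := rfl

theorem ov_eq {g : ℕ} (a : Fin (2 * g) → ℤ) : ov ℚ (pol a) = poly a ℚ := rfl

theorem pen {g : ℕ} {a : Fin (2 * g) → ℤ} {m : ℤ}
    {A B : Matrix (Fin (2 * g + 2)) (Fin (2 * g + 2)) ℤ} (h : IsPencil a m A B) :
    Pool.Agent.N844.QF.IsPen a m A B := ⟨h.symA, h.symB, h.disc⟩

/-- from the explicit 2-Selmer group to the statements -/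
theorem good_of (M : Type) [Field M] [NumberField M] {n : ℕ} (hn : Module.finrank ℚ M = 2 ^ n)
    {g : ℕ} (a : Fin (2 * g) → ℤ) (hi : Irreducible (ov ℚ (pol a)))
    (h : Pool.Agent.N874.QM.SelM M ((pol a).map (algebraMap ℤ M))) :
    UniquelyTwoDivisible (poly a M) ∧ ShaTwoTrivialReal (poly a M) (𝓞 M) ∧
      SelmerZero (poly a M) (𝓞 M) := by
  have hm : (pol a).Monic := Pool.Agent.N783.PQ.pol_monic a
  have ho : Odd (pol a).natDegree := by
    rw [Pool.Agent.N783.PQ.pol_natDegree]
    exact odd_two_mul_add_one g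
  have h5 := Pool.Agent.N874.QM.genuine M hn hm ho hi h
  have e : (pol a).map (algebraMap ℤ M) = poly a M := by
    unfold poly polyZ pol
    congr 1
  rw [e] at h5
  obtain ⟨h6, h7⟩ := h5
  refine ⟨h6, h7, fun c hc hl => ?_⟩
  have hs : (poly a M).Separable := by
    have h8 : (poly a M) = (ov ℚ (pol a)).map (algebraMap ℚ M) := by
      rw [ov_eq]
      unfold poly
      rw [Polynomial.map_map]
      congr 1
      exact RingHom.ext_int _ _
    rw [h8]
    exact hi.separable.map
  have hm' : (poly a M).Monic := by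
    rw [← e]
    exact hm.map _
  have ho' : Odd (poly a M).natDegree := by
    rw [← e, hm.natDegree_map]
    exact ho
  exact Pool.Agent.N844.QF.h1f_zero (F := poly a M) two_ne_zero hm' hs ho' (𝓞 M) h6 h7 c
    (fun n => (hc.2 n).1) hc.1 (fun σ τ n => (hc.2 n).2 σ τ) (fun v n => by
      obtain ⟨ι, Q, -, hQ⟩ := hl v
      exact ⟨ι, Q n, hQ n⟩)

end proof

/-- **Theorem.** The vanishing of `J(M) ⊗ ℚ_2` and of the Bloch-Kato Selmer group of `V_2 J` for a positive
proportion of all `f`, and the intersections of two quadrics `X` with `H^(2g-1)(X)(g) = V_2 J`. -/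
theorem result (g : ℕ) (hg : 1 ≤ g) :
    -- a positive proportion of all `f`, for every Galois 2-extension `M` in `ℝ` and in `ℚ_2`
    (∀ (M : Type) [Field M] [NumberField M], IsTwoExtension M → PositiveProportion M g) ∧
    -- all pencils
    (∀ (a : Fin (2 * g) → ℤ) (m : ℤ) (A B : Mat g), IsPencil a m A B → ∀ (k : Type) [Field k],
      (2 : k) ≠ 0 → (m : k) ≠ 0 → (poly a k).Separable →
        Smooth A B k ∧ (Finite k → PointCount a A B k)) ∧
    -- for every `f` a pencil with `m = 1` and a rational linear subspace of dimension `g - 1` of `X`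
    (∀ a : Fin (2 * g) → ℤ, ∃ A B : Mat g, IsPencil a 1 A B ∧ ContainsPlane A B) := by
  classical
  refine ⟨?_, ?_, ?_⟩
  · intro M _ _ hM
    haveI := hM.galois
    obtain ⟨n, hn⟩ := hM.degree
    obtain ⟨τ⟩ := hM.two
    obtain ⟨ρ⟩ := hM.real
    obtain ⟨c, hc, B₀, hB₀⟩ := Pool.Agent.N874.QM.final hg M τ ρ n hn
    refine ⟨c, hc, B₀, fun B hB => ?_⟩
    obtain ⟨hHt, hle⟩ := hB₀ B hB
    have e1 : Pool.Agent.N783.PQ.pol '' (Box g B) = {f : ℤ[X] | Pool.Agent.N783.PQ.Ht g B f} := by
      have h0 := Pool.Agent.N42.PQ.image_eq (g := g) B (fun _ => True)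
      simp only [and_true] at h0
      exact h0
    have hfin : (Box g B).Finite := by
      refine Set.Finite.of_finite_image ?_ (Pool.Agent.N42.PQ.pol_inj.injOn)
      rw [e1]
      exact hHt
    refine ⟨hfin, ?_, ?_⟩
    · rw [Set.ncard_pos hfin]
      exact ⟨fun _ => 0, fun i => by
        rw [abs_zero]
        positivity⟩
    · rw [← e1, Set.ncard_image_of_injective _ Pool.Agent.N42.PQ.pol_inj] at hle
      refine hle.trans ?_
      have e2 := Pool.Agent.N42.PQ.image_eq (g := g) B (fun f =>
        Irreducible (Pool.Agent.N783.PQ.ov ℚ f) ∧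
        Pool.Agent.N874.QM.SelM M (f.map (algebraMap ℤ M)))
      rw [← e2, Set.ncard_image_of_injective _ Pool.Agent.N42.PQ.pol_inj]
      have h3 : {a : Fin (2 * g) → ℤ | (∀ i, |a i| ≤ (B : ℤ) ^ (2 * g + 1 - (i : ℕ))) ∧
          Irreducible (Pool.Agent.N783.PQ.ov ℚ (Pool.Agent.N783.PQ.pol a)) ∧
          Pool.Agent.N874.QM.SelM M ((Pool.Agent.N783.PQ.pol a).map (algebraMap ℤ M))} ⊆
          Good M g B := by
        rintro a ⟨h4, h5, h6⟩
        exact ⟨h4, h5, good_of M hn a h5 h6⟩
      exact_mod_cast Set.ncard_le_ncard h3 (hfin.subset fun a ha => ha.1)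
  · intro a m A B h k _ h2 hm hs
    exact ⟨fun y hy h6 => (pen h).smooth hm hs hy h6.1 h6.2, fun _ => (pen h).num hg k h2 hm hs⟩
  · intro a
    refine ⟨Pool.Agent.N844.QF.eA a, Pool.Agent.N844.QF.eB a,
      ⟨(Pool.Agent.N844.QF.ex_pen a).symA, (Pool.Agent.N844.QF.ex_pen a).symB,
        (Pool.Agent.N844.QF.ex_pen a).disc⟩, fun y hy => ?_⟩
    have key : ∀ A : Mat g,
        (∀ i j : Fin (2 * g + 2), (i : ℕ) < g → (j : ℕ) < g → A i j = 0) → qf A y = 0 := by
      intro A hA
      unfold qf
      simp only [dotProduct, mulVec]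
      refine Finset.sum_eq_zero fun i _ => ?_
      rcases Nat.lt_or_ge (i : ℕ) g with hi | hi
      · rw [Finset.sum_eq_zero, mul_zero]
        intro j _
        rcases Nat.lt_or_ge (j : ℕ) g with hj | hj
        · rw [hA i j hi hj, zero_mul]
        · rw [hy j hj, mul_zero]
      · rw [hy i hi, zero_mul]
    exact ⟨key _ fun i j hi hj => (Pool.Agent.N844.QF.e_zero a i j hi hj).1,
      key _ fun i j hi hj => (Pool.Agent.N844.QF.e_zero a i j hi hj).2⟩

end Pool.Agent.N844.Kept.AllQuadricPencilsM
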