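import Pool.Agent.N844.QP.Sel

/-!
# The conjecture of Bloch and Kato on the Abel–Jacobi map for intersections of two quadrics, `p = 2`,
# over totally real fields

`E_m` is the quadratic twist by `m` of the modular curve `X_0(15)` (no complex multiplication), with the
equation `y² = x³ - 12987 m² x - 263466 m³`. We consider smooth complete intersections `X ⊂ P⁵` of two
quadrics, base loci of the pencils with the discriminant curve
`C : y² = 2a(aa'x² - 1)(aa'x² - 25)(3aa'x² + 125)` (up to squares), over the totally real multiquadratic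
fields `F = ℚ(√d_1, …, √d_r)` of any degree `2 ^ r`, for squarefree `d_t ≡ 1, 49 mod 60` and `a, a'` which
are up to squares squarefree and `≡ 23, 47 mod 60`.

Call the pair `(a, a')` good over `F` if the curves `E_{- a d_T}`, `E_{- a' d_T}` over `ℚ`,
`d_T = ∏_{t ∈ T} d_t`, have finitely many rational points and no element of order two in the
Tate-Shafarevich group. Let `c` be the number of the different curves among them (`2 ^ r` if `a = a'`, and
`2 · 2 ^ r` if `E_{-a}` and `E_{-a'}` are not isomorphic over `F`).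

(1) For good pairs `E(F) ⊗ ℚ_2` and `H¹_f(F, V_2 E)` are zero for `E = E_{-a}, E_{-a'}`; and for ALL pencils
as above `X` is smooth and for all the places `v` of `F` not dividing `30 a a' m` the traces of the powers
of Frobenius on `H³(X)`, given by the numbers of points of `X` over all finite extensions of the residue
field, are those on `(H¹(E_{-a}) ⊕ H¹(E_{-a'}))(-1)`.
(2) For every `F` and every pair the twisted pair `(a D, a' D)` is good over `F` for the squarefree
`D ≡ 1, 49 mod 60` of natural density exactly `η ^ c`, `η = (1 - 1/2) (1 - 1/4) (1 - 1/8) ⋯ = 0.2888…`.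
(3) For every `X` good over `F`, it is good over `F(√D)` for the `D` of natural density exactly `η ^ c`.
(4) For every `X` good over `F` there are `q_1 < q_2 < ⋯` such that `X` is good over all the fields
`F(√q_1, …, √q_k)`, of degree `2 ^ k` over `F`.
(5) For `a = a'` there is an explicit pencil.

By (1) and by Faltings `V = H³(X, ℚ_2(2))` is `V_2 E_{-a} ⊕ V_2 E_{-a'}`, and `CH²(X)_0 ⊗ ℚ_2 = J(F) ⊗ ℚ_2`
for the Jacobian `J` of `C` (Reid, Donagi, Bloch–Murre), isogenous to `E_{-a} × E_{-a'}`; this is not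
formalized. So both sides of the conjecture are zero.

`H1f 2 W` (`Pool.Agent.Y667.BKP.H1f`, by helper667) is the group of the classes of the continuous
cocycles of the absolute Galois group with values in `V_2 W = T_2 W ⊗ ℚ_2` whose restriction to the
completion at every place is in the image of the Kummer map; this is the condition of Bloch and Kato.
The threefolds are in `Pool/Agent/N844/QP`. The densities and the finiteness of `Ш(E/F)[2^∞]` are the work
of helper856 and others (`Pool/Agent/N856/JL`, see `MP_1d384c_nt/TwistProductsX15`). The `L`-functions: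
`MP_b8021b_nt/QuadricPencilTowers`.
-/

set_option autoImplicit false

open NumberField IsDedekindDomain Filter Topology Matrix
open scoped LinearAlgebra.Projectivization Classical

namespace Pool.Agent.Results.MP_787500_nt.QuadricPencilSelmer

/-! ### the twists of `X_0(15)` and the fields -/

/-- the twist `E_m : y² = x³ - 12987 m² x - 263466 m³` by `m` of `X_0(15)`, over the field `K` -/
def E (K : Type) [Field K] (m : ℤ) : WeierstrassCurve K :=
  { a₁ := 0, a₂ := 0, a₃ := 0, a₄ := ((-12987 * m ^ 2 : ℤ) : K), a₆ := ((-263466 * m ^ 3 : ℤ) : K) }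

/-- `E_m(ℚ)` is finite and `Ш(E_m/ℚ)` has no element of order two -/
def RankZeroShaTwo (m : ℤ) : Prop :=
  Finite (E ℚ m).toAffine.Point ∧ ∀ x : Pool.Agent.TH841.NF.D.Sha (E ℚ m), 2 • x = 0 → x = 0

/-- the class `𝒩` of the squarefree `n` with `n ≡ 23, 47 mod 60` -/
def Twist (n : ℕ) : Prop := Squarefree n ∧ (n % 60 = 23 ∨ n % 60 = 47)

/-- the class `𝒟` of the squarefree `d` with `d ≡ 1, 49 mod 60` -/
def Disc (d : ℕ) : Prop := Squarefree d ∧ (d % 60 = 1 ∨ d % 60 = 49)

/-- up to a square `z` has the property `C` -/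
def UpToSq (C : ℕ → Prop) (z : ℕ) : Prop := ∃ n k : ℕ, C n ∧ k ≠ 0 ∧ z = n * k ^ 2

/-- `ℚ(√d_1, …, √d_r)` has degree `2 ^ r` -/
def Independent {r : ℕ} (d : Fin r → ℕ) : Prop :=
  ∀ T : Finset (Fin r), T.Nonempty → ¬ IsSquare (∏ t ∈ T, d t)

/-- `K = ℚ(√d_1, …, √d_r)` -/
def IsMultiquadratic {r : ℕ} (d : Fin r → ℕ) (K : Type) [Field K] [NumberField K] : Prop :=
  ∃ x : Fin r → K, (∀ t, x t ^ 2 = (d t : K)) ∧ IntermediateField.adjoin ℚ (Set.range x) = ⊤

/-- the pair `e` is good over `K = ℚ(√d_1, …, √d_r)`: the curves `E_{- e_i ∏_{t ∈ T} d_t}` over `ℚ` have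
finitely many rational points and no element of order two in the Tate-Shafarevich group -/
def Good {r : ℕ} (d : Fin r → ℕ) (e : Fin 2 → ℕ) : Prop :=
  ∀ i, ∀ T : Finset (Fin r), RankZeroShaTwo (-(e i : ℤ) * ∏ t ∈ T, (d t : ℤ))

/-- the twist of the pair by `D` -/
def twist (e : Fin 2 → ℕ) (D : ℕ) : Fin 2 → ℕ := fun i => e i * D

/-- the number of the different curves among the curves `E_{- e_i ∏_{t ∈ T} d_t}` over `ℚ`, that is of the
different classes modulo squares of the numbers `e_i ∏_{t ∈ T} d_t` -/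
noncomputable def curves {r : ℕ} (d : Fin r → ℕ) (e : Fin 2 → ℕ) : ℕ :=
  Set.ncard {s : ℕ | Squarefree s ∧ ∃ i, ∃ T : Finset (Fin r), ∃ k : ℕ, k ≠ 0 ∧
    e i * ∏ t ∈ T, d t = s * k ^ 2}

/-- the limit `(1 - 1/2) (1 - 1/4) (1 - 1/8) ⋯` -/
noncomputable def eta : ℝ := ∏' i : ℕ, (1 - (1 / 2 : ℝ) ^ (i + 1))

open Classical in
/-- the number of the `m ≤ X` with the property `P` -/
noncomputable def count (P : ℕ → Prop) (X : ℕ) : ℕ := ((Finset.Icc 1 X).filter fun m => P m).card

/-- among the numbers with the property `P`, those with the property `Q` have natural density `δ` -/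
def HasDensity (P Q : ℕ → Prop) (δ : ℝ) : Prop :=
  Tendsto (fun X : ℕ => (count (fun m => P m ∧ Q m) X : ℝ) / (count P X : ℝ)) atTop (𝓝 δ)

/-! ### the intersections of two quadrics -/

/-- the quadratic form of a matrix -/
def qf {R : Type*} [CommRing R] {N : ℕ} (M : Matrix (Fin N) (Fin N) R) (y : Fin N → R) : R :=
  y ⬝ᵥ (M *ᵥ y)

/-- the integral pencils of quadrics in `P⁵` with the discriminant curve
`y² = 2a(aa'x² - 1)(aa'x² - 25)(3aa'x² + 125)` -/
structure IsPencil (a a' m : ℤ) (A B : Matrix (Fin 6) (Fin 6) ℤ) : Prop where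
  symA : A.IsSymm
  symB : B.IsSymm
  disc : ∀ x : ℤ, -(x • A - B).det = 2 * a * m ^ 2 * ((a * a' * x ^ 2 - 1) *
    (a * a' * x ^ 2 - 25) * (3 * (a * a') * x ^ 2 + 125))

/-- the reduction of an integral matrix to a field -/
def red {N : ℕ} (A : Matrix (Fin N) (Fin N) ℤ) (k : Type) [Field k] : Matrix (Fin N) (Fin N) k :=
  A.map (Int.castRingHom k)

/-- the base locus of the pencil is smooth over `k` (Jacobian criterion at the points over `k`) -/
def Smooth (A B : Matrix (Fin 6) (Fin 6) ℤ) (k : Type) [Field k] : Prop :=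
  ∀ y : Fin 6 → k, y ≠ 0 → qf (red A k) y = 0 → qf (red B k) y = 0 →
    LinearIndependent k ![red A k *ᵥ y, red B k *ᵥ y]

/-- the number of points over `k` of the base locus `X ⊂ P⁵` of the pencil -/
noncomputable def numP (A B : Matrix (Fin 6) (Fin 6) ℤ) (k : Type) [Field k] : ℕ :=
  Nat.card {P : ℙ k (Fin 6 → k) // qf (red A k) P.rep = 0 ∧ qf (red B k) P.rep = 0}

/-- the number `q_v` of elements of the residue field of a finite place `v` of `K` -/
noncomputable def qv (K : Type) [Field K] (v : HeightOneSpectrum (𝓞 K)) : ℕ :=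
  Nat.card (𝓞 K ⧸ v.asIdeal)

/-- the trace of Frobenius of `E_m`: `q_v` minus the number of affine points of `E_m` over the residue
field -/
noncomputable def av (K : Type) [Field K] (m : ℤ) (v : HeightOneSpectrum (𝓞 K)) : ℤ :=
  (qv K v : ℤ) - Nat.card {z : (𝓞 K ⧸ v.asIdeal) × (𝓞 K ⧸ v.asIdeal) //
    z.2 ^ 2 = z.1 ^ 3 + ((-12987 * m ^ 2 : ℤ) : 𝓞 K ⧸ v.asIdeal) * z.1 +
      ((-263466 * m ^ 3 : ℤ) : 𝓞 K ⧸ v.asIdeal)}

/-- `H³(X) = (H¹(E_{-a}) ⊕ H¹(E_{-a'}))(-1)` at all the places `v` of `K` not dividing `M`: let `ω, ω̄` and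
`ω', ω̄'` be the eigenvalues of Frobenius of the two curves over the residue field with `q` elements; the
number of points of `X` over every extension `k` of degree `r` of the residue field is
`1 + q^r + q^(2r) + q^(3r) - ((q ω)^r + (q ω̄)^r + (q ω')^r + (q ω̄')^r)` -/
def Decomposition (K : Type) [Field K] [NumberField K] (a a' M : ℤ)
    (A B : Matrix (Fin 6) (Fin 6) ℤ) : Prop :=
  ∀ v : HeightOneSpectrum (𝓞 K), ((M : ℤ) : 𝓞 K) ∉ v.asIdeal →
    ∃ ω ω' : ℂ, ω * (starRingEnd ℂ) ω = qv K v ∧ ω' * (starRingEnd ℂ) ω' = qv K v ∧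
      (av K (-a) v : ℂ) = ω + (starRingEnd ℂ) ω ∧ (av K (-a') v : ℂ) = ω' + (starRingEnd ℂ) ω' ∧
      ∀ (k : Type) [Field k] [Fintype k] [Algebra (𝓞 K ⧸ v.asIdeal) k] (r : ℕ),
        Fintype.card k = qv K v ^ r →
        (numP A B k : ℂ) =
          1 + (qv K v : ℂ) ^ r + (qv K v : ℂ) ^ (2 * r) + (qv K v : ℂ) ^ (3 * r) -
            (qv K v : ℂ) ^ r * ((ω ^ r + (starRingEnd ℂ) ω ^ r) +
              (ω' ^ r + (starRingEnd ℂ) ω' ^ r))

/-- `W` is an elliptic curve, and `W(K) ⊗ ℚ_2` and `H¹_f(K, V_2 W)` are zero -/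
def BothZero {K : Type} [Field K] [NumberField K] (W : WeierstrassCurve K) : Prop :=
  W.IsElliptic ∧ (∀ x : TensorProduct ℤ W.toAffine.Point ℚ_[2], x = 0) ∧
    ∀ x : Pool.Agent.Y667.BKP.H1f 2 W, x = 0

/-- the conjecture for the intersections of two quadrics of the pair `e` over `K = ℚ(√d_1, …, √d_r)` -/
def BlochKato {r : ℕ} (d : Fin r → ℕ) (e : Fin 2 → ℕ) : Prop :=
  ∀ (K : Type) [Field K] [NumberField K], IsMultiquadratic d K →
    Module.finrank ℚ K = 2 ^ r ∧ (∀ i, BothZero (E K (-(e i : ℤ)))) ∧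
    ∀ m : ℤ, m ≠ 0 → ∀ A B : Matrix (Fin 6) (Fin 6) ℤ, IsPencil (e 0) (e 1) m A B →
      (∀ (k : Type) [Field k] [CharZero k], Smooth A B k) ∧
      Decomposition K (e 0) (e 1) (30 * (e 0 * e 1 * m)) A B

/-- `a (10 a y₀² + y₁² + y₂² + y₃² + 3 y₄² - 5 y₅²)` -/
def exA (a : ℤ) : Matrix (Fin 6) (Fin 6) ℤ :=
  !![10 * a ^ 2, 0, 0, 0, 0, 0;
     0, a, 0, 0, 0, 0;
     0, 0, a, 0, 0, 0;
     0, 0, 0, a, 0, 0;
     0, 0, 0, 0, 3 * a, 0;
     0, 0, 0, 0, 0, -5 * a]

/-- `10 a y₀² - y₁² + 5 y₂² - 5 y₃² - 50 y₄ y₅` -/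
def exB (a : ℤ) : Matrix (Fin 6) (Fin 6) ℤ :=
  !![10 * a, 0, 0, 0, 0, 0;
     0, -1, 0, 0, 0, 0;
     0, 0, 5, 0, 0, 0;
     0, 0, 0, -5, 0, 0;
     0, 0, 0, 0, 0, -25;
     0, 0, 0, 0, -25, 0]

theorem blochKato {r : ℕ} {d : Fin r → ℕ} (hd : ∀ t, Disc (d t)) {e : Fin 2 → ℕ}
    (he : ∀ i, UpToSq Twist (e i)) (hi : Independent d) (hg : Good d e) : BlochKato d e := by
  intro K _ _ hK
  obtain ⟨h1, h2⟩ := Pool.Agent.N844.QP.Tower.both hd he hi hg K hK
  refine ⟨h1, fun i => ?_, fun m hm A B hAB => ?_⟩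
  · obtain ⟨g1, g2, g3⟩ := h2 i
    exact ⟨⟨isUnit_iff_ne_zero.2 g1⟩, g2, g3⟩
  have hn : (e 0 : ℤ) ≠ 0 := by exact_mod_cast (Pool.Agent.N844.QP.Tower.pos_e he 0).ne'
  have hn' : (e 1 : ℤ) ≠ 0 := by exact_mod_cast (Pool.Agent.N844.QP.Tower.pos_e he 1).ne'
  have hAB' : Pool.Agent.N844.QP.IsPencil (e 0) (e 1) m A B := ⟨hAB.symA, hAB.symB, hAB.disc⟩
  refine ⟨fun k _ _ y hy h6 h7 => ?_, fun v hv => ?_⟩
  · exact hAB'.smooth (by norm_num) (by norm_num) (by norm_num) (by exact_mod_cast hn)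
      (by exact_mod_cast hn') (by exact_mod_cast hm) hy h6 h7
  · obtain ⟨ω, ω', w1, w2, w3, w4, w5⟩ := Pool.Agent.N844.QP.decompV hAB' hv
    refine ⟨ω, ω', w1, w2, ?_, ?_, fun k _ _ _ r hr => w5 k r hr⟩
    · rw [← w3]
      unfold av Pool.Agent.N844.QP.av Pool.Agent.N844.QP.aE Pool.Agent.N844.QP.bE
      rw [show -12987 * (-(e 0 : ℤ)) ^ 2 = -12987 * (e 0 : ℤ) ^ 2 by ring,
        show -263466 * (-(e 0 : ℤ)) ^ 3 = 263466 * (e 0 : ℤ) ^ 3 by ring]
      rfl
    · rw [← w4]
      unfold av Pool.Agent.N844.QP.av Pool.Agent.N844.QP.aE Pool.Agent.N844.QP.bE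
      rw [show -12987 * (-(e 1 : ℤ)) ^ 2 = -12987 * (e 1 : ℤ) ^ 2 by ring,
        show -263466 * (-(e 1 : ℤ)) ^ 3 = 263466 * (e 1 : ℤ) ^ 3 by ring]
      rfl

/-- **The conjecture of Bloch and Kato on the Abel–Jacobi map for intersections of two quadrics in
`P⁵`, `p = 2`, over totally real multiquadratic fields: exact natural densities.** -/
theorem result {r : ℕ} {d : Fin r → ℕ} (hd : ∀ t, Disc (d t)) :
    -- the conjecture for good pairs
    (∀ e : Fin 2 → ℕ, (∀ i, UpToSq Twist (e i)) → Independent d → Good d e → BlochKato d e) ∧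
    -- fixed field, random quadratic twist
    (∀ e : Fin 2 → ℕ, (∀ i, UpToSq Twist (e i)) →
      (∀ D, Disc D → ∀ i, UpToSq Twist (twist e D i)) ∧
      HasDensity Disc (fun D => Good d (twist e D)) (eta ^ curves d e)) ∧
    (∀ e : Fin 2 → ℕ, (∀ i, UpToSq Disc (e i)) →
      (∀ n, Twist n → ∀ i, UpToSq Twist (twist e n i)) ∧
      HasDensity Twist (fun n => Good d (twist e n)) (eta ^ curves d e)) ∧
    -- fixed threefold, random quadratic extension of the field
    (∀ e : Fin 2 → ℕ, (∀ i, UpToSq Twist (e i)) → Good d e →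
      HasDensity Disc (fun D => Good (Fin.snoc d D : Fin (r + 1) → ℕ) e) (eta ^ curves d e)) ∧
    -- infinite towers
    (∀ e : Fin 2 → ℕ, (∀ i, UpToSq Twist (e i)) → Independent d → Good d e →
      ∃ q : ℕ → ℕ, StrictMono q ∧ (∀ j, Disc (q j)) ∧
        ∀ k, Independent (Fin.append d fun i : Fin k => q i) ∧
          Good (Fin.append d fun i : Fin k => q i) e ∧
          BlochKato (Fin.append d fun i : Fin k => q i) e) ∧
    -- the exponents
    (Independent d → ∀ a : ℕ, 0 < a → curves d ![a, a] = 2 ^ r) ∧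
    (Independent d → ∀ a a' : ℕ, 0 < a → 0 < a' →
      (∀ T : Finset (Fin r), ¬ IsSquare (a * a' * ∏ t ∈ T, d t)) → curves d ![a, a'] = 2 * 2 ^ r) ∧
    -- an explicit pencil for every `a`
    (∀ a : ℤ, IsPencil a a 5 (exA a) (exB a)) ∧
    0.2887 < eta ∧ eta < 0.2889 := by
  obtain ⟨-, h2, h3, h4, h5, -, h7, h8⟩ := Pool.Agent.N856.JL.Av.main (ι := Fin 2) hd
  refine ⟨fun e he hi hg => blochKato hd he hi hg, fun e he => ⟨fun D hD i => ?_, h2 e he⟩,
    fun e he => ⟨fun n hn i => ?_, h3 e he⟩, fun e he hg => h4 e he hg, fun e he hi hg => ?_,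
    fun hi a ha => ?_, fun hi a a' ha ha' h => ?_, fun a => ?_, h7, h8⟩
  · exact Pool.Agent.N844.QP.Tower.closed_tw he hD i
  · exact Pool.Agent.N844.QP.Tower.closed_tw' he hn i
  · obtain ⟨q, q1, q2, q3⟩ := h5 e he hi hg
    refine ⟨q, q1, q2, fun k => ⟨(q3 k).1, (q3 k).2, ?_⟩⟩
    refine blochKato (fun t => ?_) he (q3 k).1 (q3 k).2
    refine Fin.addCases (fun i => ?_) (fun i => ?_) t
    · rw [Fin.append_left]
      exact hd i
    · rw [Fin.append_right]
      exact q2 i
  · exact Pool.Agent.N844.QP.Tower.curves_const hd hi ha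
  · exact Pool.Agent.N844.QP.Tower.curves_pair hd hi ha ha' h
  · have h := Pool.Agent.N844.QP.ex_pencil a
    exact ⟨h.symA, h.symB, h.disc⟩

end Pool.Agent.Results.MP_787500_nt.QuadricPencilSelmer
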